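import Pool.Agent.Helper41.LD2.Defs

/-!
# Block DIO start of LD2: a starting window in every interval
-/

set_option autoImplicit false

namespace Pool.Agent.Helper23.LD2

open Set MeasureTheory Filter Topology Pool.Agent.Helper41.LD2

variable {A₀ x₁ x₂ : ℝ}

/-- a finite family of intervals of small total length leaves a point free -/
theorem exists_avoid {ι : Type*} (s : Finset ι) (z w : ι → ℝ) {a b : ℝ} (hw : ∀ i ∈ s, 0 ≤ w i)
    (hsum : ∑ i ∈ s, w i < b - a) : ∃ x ∈ Icc a b, ∀ i ∈ s, x ∉ Icc (z i) (z i + w i) := by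
  by_contra hcon
  push Not at hcon
  have h1 : Icc a b ⊆ ⋃ i ∈ s, Icc (z i) (z i + w i) := by
    intro x hx
    obtain ⟨i, hi, hxi⟩ := hcon x hx
    simp only [mem_iUnion]
    exact ⟨i, hi, hxi⟩
  have h2 : volume (Icc a b) ≤ ∑ i ∈ s, volume (Icc (z i) (z i + w i)) :=
    (measure_mono h1).trans (measure_biUnion_finset_le s _)
  simp only [Real.volume_Icc, add_sub_cancel_left] at h2
  rw [← ENNReal.ofReal_sum_of_nonneg hw] at h2
  have h3 := (ENNReal.ofReal_le_ofReal_iff (Finset.sum_nonneg hw)).1 h2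
  linarith

/-- roots are close if the powers are -/
theorem root_close {x z : ℝ} (hx : 1 ≤ x) (hz : 0 ≤ z) {d : ℕ} (hd : 1 ≤ d) : |x - z| ≤ |x ^ d - z ^ d| := by
  have h1 := geom_sum₂_mul x z d
  rw [← h1, abs_mul]
  have h2 : 1 ≤ ∑ i ∈ Finset.range d, x ^ i * z ^ (d - 1 - i) := by
    have h3 : x ^ (d - 1) * z ^ (d - 1 - (d - 1)) ≤ ∑ i ∈ Finset.range d, x ^ i * z ^ (d - 1 - i) :=
      Finset.single_le_sum (f := fun i => x ^ i * z ^ (d - 1 - i)) (fun i _ => by positivity)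
        (Finset.mem_range.2 (by omega))
    have h4 : x ^ (d - 1) * z ^ (d - 1 - (d - 1)) = x ^ (d - 1) := by simp
    rw [h4] at h3
    exact (one_le_pow₀ hx).trans h3
  rw [abs_of_nonneg (by linarith : 0 ≤ ∑ i ∈ Finset.range d, x ^ i * z ^ (d - 1 - i))]
  exact le_mul_of_one_le_left (abs_nonneg _) h2

/-- the weights of the centres -/
theorem term_le {x₂ C : ℝ} (h2 : 1 < x₂) (hC : 3 + Real.log x₂ ≤ C) {d q : ℕ} (hd : 1 ≤ d) (hq : 1 ≤ q) :
    (q : ℝ) * x₂ ^ d * Real.exp (-(C * ((d : ℝ) + Real.log q) ^ 3)) ≤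
      Real.exp (-(C - (3 + Real.log x₂))) * (Real.exp (-1) ^ d * (1 / (q : ℝ) ^ 2)) := by
  have hlx : 0 < Real.log x₂ := Real.log_pos h2
  have hd1 : (1 : ℝ) ≤ d := by exact_mod_cast hd
  have hq1 : (1 : ℝ) ≤ q := by exact_mod_cast hq
  have hq0 : (0 : ℝ) < q := by linarith
  have hlq : 0 ≤ Real.log q := Real.log_nonneg hq1
  set v : ℝ := (d : ℝ) + Real.log q with hv
  have hv1 : 1 ≤ v := by linarith
  have hv3 : v ≤ v ^ 3 := by simpa using pow_le_pow_right₀ hv1 (show 1 ≤ 3 by norm_num)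
  have hv31 : 1 ≤ v ^ 3 := hv1.trans hv3
  have e1 : C * v ^ 3 ≥ (C - (3 + Real.log x₂)) + (3 + Real.log x₂) * v := by
    have a1 : (C - (3 + Real.log x₂)) * 1 ≤ (C - (3 + Real.log x₂)) * v ^ 3 :=
      mul_le_mul_of_nonneg_left hv31 (by linarith)
    have a2 : (3 + Real.log x₂) * v ≤ (3 + Real.log x₂) * v ^ 3 :=
      mul_le_mul_of_nonneg_left hv3 (by linarith)
    linarith
  have e2 : Real.log q + d * Real.log x₂ - C * v ^ 3
      ≤ -(C - (3 + Real.log x₂)) + (-(d : ℝ) - 2 * Real.log q) := by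
    have a3 : (3 + Real.log x₂) * v = 3 * d + 3 * Real.log q + Real.log x₂ * d
        + Real.log x₂ * Real.log q := by rw [hv]; ring
    have a4 : 0 ≤ Real.log x₂ * Real.log q := mul_nonneg hlx.le hlq
    linarith
  have e3 : (q : ℝ) * x₂ ^ d * Real.exp (-(C * v ^ 3))
      = Real.exp (Real.log q + d * Real.log x₂ - C * v ^ 3) := by
    rw [sub_eq_add_neg, Real.exp_add, Real.exp_add, Real.exp_log hq0, ← Real.log_pow,
      Real.exp_log (by positivity)]
  have e4 : Real.exp (-(C - (3 + Real.log x₂))) * (Real.exp (-1) ^ d * (1 / (q : ℝ) ^ 2))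
      = Real.exp (-(C - (3 + Real.log x₂)) + (-(d : ℝ) - 2 * Real.log q)) := by
    have e5 : Real.exp (-(d : ℝ) - 2 * Real.log q) = Real.exp (-(d : ℝ)) * Real.exp (-(2 * Real.log q)) := by
      rw [← Real.exp_add]; congr 1
    rw [Real.exp_add, e5]
    congr 2
    · rw [← Real.exp_nat_mul]
      congr 1
      ring
    · rw [Real.exp_neg, one_div]
      congr 1
      have : 2 * Real.log q = Real.log ((q : ℝ) ^ 2) := by
        rw [Real.log_pow]; push_cast; ring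
      rw [this, Real.exp_log (by positivity)]
  rw [e3, e4]
  exact Real.exp_le_exp.2 e2

/-- a starting window in every interval -/
theorem dio_start (h1 : 1 < x₁) (h12 : x₁ < x₂) (hA : 0 < A₀) {c₀ : ℝ} (hc₀ : 0 < c₀) : ∃ C₀ : ℝ, ∀ C ≥ C₀, ∃ N₂ : ℕ,
    ∀ n : ℕ, N₂ ≤ n → ∃ a ℓ : ℝ, x₁ ≤ a ∧ a + ℓ ≤ x₂ ∧ PWin A₀ n a ℓ ∧ Dio C c₀ n a ℓ := by
  have hx2 : 1 < x₂ := h1.trans h12
  have hx10 : 0 < x₁ := by linarith
  have hx20 : 0 < x₂ := by linarith
  have hlx : 0 < Real.log x₂ := Real.log_pos hx2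
  have hlx1 : 0 < Real.log x₁ := Real.log_pos h1
  set S₁ : ℝ := ∑' d : ℕ, Real.exp (-1) ^ d with hS₁
  set S₂ : ℝ := ∑' q : ℕ, 1 / (q : ℝ) ^ 2 with hS₂
  have hsum1 : Summable fun d : ℕ => Real.exp (-1) ^ d :=
    summable_geometric_of_lt_one (Real.exp_pos _).le (by
      rw [Real.exp_lt_one_iff]; norm_num)
  have hsum2 : Summable fun q : ℕ => 1 / (q : ℝ) ^ 2 := Real.summable_one_div_nat_pow.2 (by norm_num)
  have hS₁0 : 0 ≤ S₁ := tsum_nonneg fun d => by positivity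
  have hS₂0 : 0 ≤ S₂ := tsum_nonneg fun q => by positivity
  set g : ℝ := (x₂ - x₁) / 4 with hg
  have hg0 : 0 < g := by rw [hg]; linarith
  -- choice of C₀
  have htend : Tendsto (fun C : ℝ => 6 * (S₁ * S₂) * Real.exp (-(C - (3 + Real.log x₂)))) atTop
      (𝓝 (6 * (S₁ * S₂) * 0)) := by
    refine Tendsto.const_mul _ ?_
    refine Real.tendsto_exp_neg_atTop_nhds_zero.comp ?_
    exact tendsto_atTop_add_const_right _ _ tendsto_id
  rw [mul_zero] at htend
  obtain ⟨C₁, hC₁⟩ := Filter.eventually_atTop.1 (htend.eventually_lt_const hg0)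
  refine ⟨max C₁ (3 + Real.log x₂), fun C hC => ?_⟩
  have hC1 := hC₁ C ((le_max_left _ _).trans hC)
  have hC2 : 3 + Real.log x₂ ≤ C := (le_max_right _ _).trans hC
  have hC0 : 0 < C := by linarith
  -- choice of N₂
  set κ : ℝ := 3 + Real.log x₂ with hκ
  have hκ0 : 0 < κ := by linarith
  obtain ⟨K, hK⟩ := exists_nat_ge (2 * κ * c₀ / Real.log x₁ + 1)
  have hK1 : (1 : ℝ) ≤ K := by
    have : 0 ≤ 2 * κ * c₀ / Real.log x₁ := by positivity
    linarith
  obtain ⟨N₃, hN₃⟩ := exists_nat_ge ((K : ℝ) ^ 3 / c₀)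
  have htend2 : Tendsto (fun n : ℕ => 3 / A₀ * Real.exp (-(Real.log x₁ / 2 * n))) atTop
      (𝓝 (3 / A₀ * 0)) := by
    refine Tendsto.const_mul _ ?_
    refine Real.tendsto_exp_neg_atTop_nhds_zero.comp ?_
    exact tendsto_natCast_atTop_atTop.const_mul_atTop (by positivity)
  rw [mul_zero] at htend2
  obtain ⟨N₄, hN₄⟩ := Filter.eventually_atTop.1 (htend2.eventually_lt_const hg0)
  refine ⟨max N₃ N₄, fun n hn => ?_⟩
  have hn3 : (K : ℝ) ^ 3 ≤ c₀ * n := by
    have : (K : ℝ) ^ 3 / c₀ ≤ n := hN₃.trans (by exact_mod_cast (le_max_left _ _).trans hn)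
    rw [div_le_iff₀ hc₀] at this
    linarith
  have hn4 := hN₄ n ((le_max_right _ _).trans hn)
  set T : ℝ := (c₀ * n) ^ ((1 : ℝ) / 3) with hT
  have hcn0 : 0 ≤ c₀ * n := by positivity
  have hT3 : T ^ 3 = c₀ * n := by
    rw [hT, ← Real.rpow_natCast, ← Real.rpow_mul hcn0]
    norm_num
  have hT0 : 0 ≤ T := by positivity
  have hTK : (K : ℝ) ≤ T := by
    rw [← hT3] at hn3
    exact le_of_pow_le_pow_left₀ (by norm_num) hT0 hn3
  have hT1 : 1 ≤ T := hK1.trans hTK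
  have hκT : κ * T ≤ Real.log x₁ / 2 * n := by
    -- T^3 = c₀ n, T ≥ K
    have a1 : 2 * κ * c₀ ≤ Real.log x₁ * K := by
      have : 2 * κ * c₀ / Real.log x₁ ≤ K := by linarith
      rw [div_le_iff₀ hlx1] at this
      linarith
    have a2 : (K : ℝ) ≤ T ^ 2 :=
      hTK.trans (by simpa using pow_le_pow_right₀ hT1 (show 1 ≤ 2 by norm_num))
    have a3 : 2 * κ * c₀ ≤ Real.log x₁ * T ^ 2 :=
      a1.trans (mul_le_mul_of_nonneg_left a2 hlx1.le)
    have a4 : 2 * κ * c₀ * T ≤ Real.log x₁ * T ^ 2 * T := mul_le_mul_of_nonneg_right a3 hT0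
    have a5 : Real.log x₁ * T ^ 2 * T = Real.log x₁ * (c₀ * n) := by rw [← hT3]; ring
    rw [a5] at a4
    have a6 : c₀ * (2 * κ * T) ≤ c₀ * (Real.log x₁ * n) := by linarith
    have a7 := le_of_mul_le_mul_left a6 hc₀
    linarith
  set lmax : ℝ := 1 / vp A₀ n x₁ with hlmax
  have hvp0 : ∀ a : ℝ, 0 < a → 0 < vp A₀ n a := fun a ha => by unfold vp; positivity
  have hlmax0 : 0 < lmax := by rw [hlmax]; exact one_div_pos.2 (hvp0 x₁ hx10)
  have hlmax1 : lmax ≤ 1 / (A₀ * x₁ ^ n) := by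
    rw [hlmax]
    apply one_div_le_one_div_of_le (by positivity)
    unfold vp
    have : A₀ * 1 * x₁ ^ n ≤ A₀ * ((n : ℝ) + 1) * x₁ ^ n := by
      apply mul_le_mul_of_nonneg_right _ (by positivity)
      apply mul_le_mul_of_nonneg_left _ hA.le
      have : (0 : ℝ) ≤ n := by positivity
      linarith
    linarith
  have hbig : 3 * Real.exp (κ * T) * lmax < g := by
    refine lt_of_le_of_lt ?_ hn4
    have a1 : Real.exp (κ * T) ≤ Real.exp (Real.log x₁ / 2 * n) := Real.exp_le_exp.2 hκT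
    have a2 : x₁ ^ n = Real.exp (Real.log x₁ * n) := by
      rw [mul_comm, ← Real.log_pow, Real.exp_log (by positivity)]
    calc 3 * Real.exp (κ * T) * lmax
        ≤ 3 * Real.exp (Real.log x₁ / 2 * n) * (1 / (A₀ * x₁ ^ n)) :=
          mul_le_mul (by linarith) hlmax1 hlmax0.le (by positivity)
      _ = 3 / A₀ * (Real.exp (Real.log x₁ / 2 * n) * (1 / x₁ ^ n)) := by
          field_simp
      _ = 3 / A₀ * Real.exp (-(Real.log x₁ / 2 * n)) := by
          rw [a2, one_div, ← Real.exp_neg, ← Real.exp_add]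
          congr 2
          ring
  have hlg : lmax < g := by
    refine lt_of_le_of_lt ?_ hbig
    have : 1 ≤ Real.exp (κ * T) := Real.one_le_exp (by positivity)
    exact le_mul_of_one_le_left hlmax0.le (by linarith)
  -- the bad intervals
  let D : ℕ := ⌊T⌋₊
  let N : ℕ := ⌊Real.exp T⌋₊
  let P : ℕ × ℕ → ℕ := fun dq => ⌊(dq.2 : ℝ) * x₂ ^ dq.1⌋₊ + 2
  let rad : ℕ × ℕ → ℝ := fun dq => Real.exp (-(C * ((dq.1 : ℝ) + Real.log dq.2) ^ 3))
  let I : Finset (ℕ × ℕ) := Finset.Icc 1 D ×ˢ Finset.Icc 1 N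
  let s : Finset (Σ _ : ℕ × ℕ, ℕ) := I.sigma fun dq => Finset.range (P dq)
  let zz : (Σ _ : ℕ × ℕ, ℕ) → ℝ := fun i =>
    ((i.2 : ℝ) / i.1.2) ^ ((1 : ℝ) / i.1.1) - rad i.1 - lmax
  let w : (Σ _ : ℕ × ℕ, ℕ) → ℝ := fun i => 2 * rad i.1 + lmax
  have hrad0 : ∀ dq, 0 < rad dq := fun dq => Real.exp_pos _
  have hw0 : ∀ i ∈ s, 0 ≤ w i := fun i _ => by
    have := hrad0 i.1
    simp only [w]; linarith
  have hsumw : ∑ i ∈ s, w i ≤ 6 * (S₁ * S₂) * Real.exp (-(C - κ)) + 3 * Real.exp (κ * T) * lmax := by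
    have e1 : ∑ i ∈ s, w i = ∑ dq ∈ I, (P dq : ℝ) * (2 * rad dq + lmax) := by
      simp only [s, w]
      rw [Finset.sum_sigma]
      apply Finset.sum_congr rfl
      intro dq _
      show ∑ _x ∈ Finset.range (P dq), (2 * rad dq + lmax) = (P dq : ℝ) * (2 * rad dq + lmax)
      rw [Finset.sum_const, Finset.card_range, nsmul_eq_mul]
    have hP : ∀ dq ∈ I, (P dq : ℝ) ≤ 3 * (dq.2 * x₂ ^ dq.1) := by
      intro dq hdq
      obtain ⟨hd, hq⟩ := Finset.mem_product.1 hdq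
      have hd1 := (Finset.mem_Icc.1 hd).1
      have hq1 : (1 : ℝ) ≤ dq.2 := by exact_mod_cast (Finset.mem_Icc.1 hq).1
      have a1 : 1 ≤ x₂ ^ dq.1 := one_le_pow₀ hx2.le
      have a2 : (1 : ℝ) ≤ dq.2 * x₂ ^ dq.1 := one_le_mul_of_one_le_of_one_le hq1 a1
      have a3 : (⌊(dq.2 : ℝ) * x₂ ^ dq.1⌋₊ : ℝ) ≤ dq.2 * x₂ ^ dq.1 := Nat.floor_le (by positivity)
      simp only [P]
      push_cast
      linarith
    rw [e1]
    have e2 : ∑ dq ∈ I, (P dq : ℝ) * (2 * rad dq + lmax)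
        ≤ ∑ dq ∈ I, (6 * Real.exp (-(C - κ)) * (Real.exp (-1) ^ dq.1 * (1 / (dq.2 : ℝ) ^ 2))
          + 3 * Real.exp ((1 + Real.log x₂) * T) * lmax) := by
      apply Finset.sum_le_sum
      intro dq hdq
      obtain ⟨hd, hq⟩ := Finset.mem_product.1 hdq
      have hd1 := Finset.mem_Icc.1 hd
      have hq1 := Finset.mem_Icc.1 hq
      have t1 := term_le hx2 hC2 hd1.1 hq1.1
      have t2 := hP dq hdq
      have t3 := hrad0 dq
      have a1 : (P dq : ℝ) * (2 * rad dq) ≤ 6 * ((dq.2 : ℝ) * x₂ ^ dq.1 * rad dq) := by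
        have := mul_le_mul_of_nonneg_right t2 (by linarith : 0 ≤ 2 * rad dq)
        linarith
      have a2 : (P dq : ℝ) * lmax ≤ 3 * Real.exp ((1 + Real.log x₂) * T) * lmax := by
        apply mul_le_mul_of_nonneg_right _ hlmax0.le
        refine t2.trans ?_
        apply mul_le_mul_of_nonneg_left _ (by norm_num)
        have b1 : (dq.2 : ℝ) ≤ Real.exp T := by
          refine le_trans ?_ (Nat.floor_le (Real.exp_pos T).le)
          exact_mod_cast hq1.2
        have b2 : (dq.1 : ℝ) ≤ T := by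
          refine le_trans ?_ (Nat.floor_le hT0)
          exact_mod_cast hd1.2
        have b3 : x₂ ^ dq.1 ≤ Real.exp (Real.log x₂ * T) := by
          rw [show x₂ ^ dq.1 = Real.exp (Real.log x₂ * dq.1) by
            rw [mul_comm, ← Real.log_pow, Real.exp_log (by positivity)]]
          exact Real.exp_le_exp.2 (mul_le_mul_of_nonneg_left b2 hlx.le)
        calc (dq.2 : ℝ) * x₂ ^ dq.1 ≤ Real.exp T * Real.exp (Real.log x₂ * T) :=
              mul_le_mul b1 b3 (by positivity) (Real.exp_pos _).le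
          _ = Real.exp ((1 + Real.log x₂) * T) := by rw [← Real.exp_add]; congr 1; ring
      have a3 : 6 * ((dq.2 : ℝ) * x₂ ^ dq.1 * rad dq)
          ≤ 6 * (Real.exp (-(C - κ)) * (Real.exp (-1) ^ dq.1 * (1 / (dq.2 : ℝ) ^ 2))) := by
        have : (dq.2 : ℝ) * x₂ ^ dq.1 * rad dq
            ≤ Real.exp (-(C - κ)) * (Real.exp (-1) ^ dq.1 * (1 / (dq.2 : ℝ) ^ 2)) := t1
        linarith
      rw [mul_add]
      linarith
    refine e2.trans ?_
    rw [Finset.sum_add_distrib, ← Finset.mul_sum, Finset.sum_const, nsmul_eq_mul]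
    apply add_le_add
    · have a1 : ∑ dq ∈ I, Real.exp (-1) ^ dq.1 * (1 / (dq.2 : ℝ) ^ 2)
          = (∑ d ∈ Finset.Icc 1 D, Real.exp (-1) ^ d) * ∑ q ∈ Finset.Icc 1 N, 1 / (q : ℝ) ^ 2 := by
        simp only [I]
        rw [Finset.sum_product, Finset.sum_mul_sum]
      have a2 : ∑ d ∈ Finset.Icc 1 D, Real.exp (-1) ^ d ≤ S₁ :=
        hsum1.sum_le_tsum _ fun d _ => by positivity
      have a3 : ∑ q ∈ Finset.Icc 1 N, 1 / (q : ℝ) ^ 2 ≤ S₂ :=
        hsum2.sum_le_tsum _ fun q _ => by positivity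
      have a4 : 0 ≤ ∑ q ∈ Finset.Icc 1 N, 1 / (q : ℝ) ^ 2 := Finset.sum_nonneg fun q _ => by positivity
      rw [a1]
      have a5 := mul_le_mul a2 a3 a4 hS₁0
      have a6 := mul_le_mul_of_nonneg_left a5 (by positivity : 0 ≤ 6 * Real.exp (-(C - κ)))
      linarith
    · have a1 : (I.card : ℝ) ≤ Real.exp (2 * T) := by
        simp only [I]
        rw [Finset.card_product, Nat.card_Icc, Nat.card_Icc]
        push_cast
        have b1 : ((D + 1 - 1 : ℕ) : ℝ) ≤ Real.exp T := by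
          rw [Nat.add_sub_cancel]
          have c1 : (D : ℝ) ≤ T := Nat.floor_le hT0
          have c2 := Real.add_one_le_exp T
          linarith
        have b2 : ((N + 1 - 1 : ℕ) : ℝ) ≤ Real.exp T := by
          rw [Nat.add_sub_cancel]
          exact Nat.floor_le (Real.exp_pos T).le
        calc ((D + 1 - 1 : ℕ) : ℝ) * ((N + 1 - 1 : ℕ) : ℝ) ≤ Real.exp T * Real.exp T :=
              mul_le_mul b1 b2 (by positivity) (Real.exp_pos _).le
          _ = Real.exp (2 * T) := by rw [← Real.exp_add]; congr 1; ring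
      have a2 : Real.exp (κ * T) = Real.exp (2 * T) * Real.exp ((1 + Real.log x₂) * T) := by
        rw [← Real.exp_add, hκ]; congr 1; ring
      rw [a2]
      have a3 := mul_le_mul_of_nonneg_right a1
        (by positivity : 0 ≤ 3 * Real.exp ((1 + Real.log x₂) * T) * lmax)
      linarith
  have htot : ∑ i ∈ s, w i < (x₂ - lmax) - x₁ := by
    have : x₂ - x₁ = 4 * g := by rw [hg]; ring
    linarith
  obtain ⟨a, ha, hav⟩ := exists_avoid s zz w hw0 htot
  have ha0 : 0 < a := by linarith [ha.1]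
  have hvpa := hvp0 a ha0
  have hℓle : 1 / vp A₀ n a ≤ lmax := by
    rw [hlmax]
    apply one_div_le_one_div_of_le (hvp0 x₁ hx10)
    unfold vp
    apply mul_le_mul_of_nonneg_left _ (by positivity)
    exact pow_le_pow_left₀ hx10.le ha.1 n
  refine ⟨a, 1 / vp A₀ n a, ha.1, by linarith [ha.2], ?_, ?_⟩
  · have : vp A₀ n a * (1 / vp A₀ n a) = 1 := by field_simp
    unfold PWin
    rw [this]
    norm_num
  · intro x hx d q hd hq hdq p
    by_contra hcon
    have hcon' : |(q : ℝ) * x ^ d - p| < rad (d, q) := not_le.1 hcon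
    have hx1 : 1 ≤ x := by linarith [hx.1, ha.1]
    have hxx2 : x ≤ x₂ := by linarith [hx.2, ha.2]
    have hq1 : (1 : ℝ) ≤ q := by exact_mod_cast hq
    have hq0 : (0 : ℝ) < q := by linarith
    have hlq : 0 ≤ Real.log q := Real.log_nonneg hq1
    have hd1 : (1 : ℝ) ≤ d := by exact_mod_cast hd
    have hrad1 : rad (d, q) ≤ 1 := by
      simp only [rad]
      rw [Real.exp_le_one_iff, neg_nonpos]
      positivity
    have hxd : 1 ≤ x ^ d := one_le_pow₀ hx1
    have hqx : 1 ≤ (q : ℝ) * x ^ d := one_le_mul_of_one_le_of_one_le hq1 hxd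
    have hab := abs_lt.1 hcon'
    -- p is a natural number in the range
    have hp0 : 0 ≤ p := by
      have : (-1 : ℝ) < p := by linarith [hab.2]
      have : (-1 : ℤ) < p := by exact_mod_cast this
      omega
    obtain ⟨p', rfl⟩ := Int.eq_ofNat_of_zero_le hp0
    have hp'lt : p' < P (d, q) := by
      have b1 : (p' : ℝ) < q * x₂ ^ d + 1 := by
        have c1 : (q : ℝ) * x ^ d ≤ q * x₂ ^ d :=
          mul_le_mul_of_nonneg_left (pow_le_pow_left₀ (by linarith) hxx2 d) hq0.le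
        have c2 : ((p' : ℤ) : ℝ) = (p' : ℝ) := by push_cast; rfl
        rw [c2] at hab
        linarith [hab.1]
      have b2 : (q : ℝ) * x₂ ^ d < ⌊(q : ℝ) * x₂ ^ d⌋₊ + 1 := Nat.lt_floor_add_one _
      have b3 : (p' : ℝ) < ((⌊(q : ℝ) * x₂ ^ d⌋₊ + 2 : ℕ) : ℝ) := by push_cast; linarith
      exact_mod_cast b3
    have hdT : (d : ℝ) + Real.log q ≤ T := by
      have : ((d : ℝ) + Real.log q) ^ 3 ≤ T ^ 3 := by rw [hT3]; exact hdq
      exact le_of_pow_le_pow_left₀ (by norm_num) hT0 this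
    have hdD : d ∈ Finset.Icc 1 D := Finset.mem_Icc.2 ⟨hd, Nat.le_floor (by linarith)⟩
    have hqN : q ∈ Finset.Icc 1 N := Finset.mem_Icc.2 ⟨hq, Nat.le_floor (by
      rw [← Real.log_le_iff_le_exp hq0]
      linarith)⟩
    have hmem : (⟨(d, q), p'⟩ : Σ _ : ℕ × ℕ, ℕ) ∈ s :=
      Finset.mem_sigma.2 ⟨Finset.mem_product.2 ⟨hdD, hqN⟩, Finset.mem_range.2 hp'lt⟩
    have hnot := hav _ hmem
    apply hnot
    -- the centre
    set z : ℝ := ((p' : ℝ) / q) ^ ((1 : ℝ) / d) with hz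
    have hpq0 : 0 ≤ (p' : ℝ) / q := by positivity
    have hz0 : 0 ≤ z := Real.rpow_nonneg hpq0 _
    have hzd : z ^ d = p' / q := by
      rw [hz, ← Real.rpow_natCast, ← Real.rpow_mul hpq0]
      rw [one_div, inv_mul_cancel₀ (by positivity), Real.rpow_one]
    have hclose : |x - z| < rad (d, q) := by
      refine lt_of_le_of_lt (root_close hx1 hz0 hd) ?_
      refine lt_of_le_of_lt ?_ hcon'
      rw [hzd]
      have c2 : ((p' : ℤ) : ℝ) = (p' : ℝ) := by push_cast; rfl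
      rw [c2]
      have c3 : (q : ℝ) * x ^ d - p' = q * (x ^ d - p' / q) := by field_simp
      rw [c3, abs_mul, abs_of_pos hq0]
      exact le_mul_of_one_le_left (abs_nonneg _) hq1
    have hcl := abs_lt.1 hclose
    simp only [zz, w]
    rw [← hz]
    constructor
    · linarith [hx.1, hx.2]
    · linarith [hx.1, hx.2]

end Pool.Agent.Helper23.LD2
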