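import Pool.Agent.Helper41.LD2.Defs
import Pool.Agent.Helper23.LD.KR

/-!
# Block EQ of LD2: equidistribution from the arithmetic condition on a window
-/

set_option autoImplicit false

namespace Pool.Agent.Helper23.LD2

open Set MeasureTheory Filter Topology Pool.Agent.Helper41.LD2
open Finset (range)

variable {x₁ : ℝ}

theorem eq_of_dio (h1 : 1 < x₁) {C c₀ : ℝ} (hC : 0 < C) (hc₀ : 0 < c₀) (R : ℕ) : ∃ D : ℝ, 0 < D ∧ ∀ᶠ K : ℕ in atTop,
    ∃ (Q₀ : ℕ) (ε : ℝ), (Q₀ : ℝ) + 1 ≤ Real.exp (D * (K : ℝ) ^ 3) ∧ 0 ≤ ε ∧ ε ≤ (1 / 2) ^ (12 * K) ∧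
      ∀ n : ℕ, K ^ 4 ≤ n → ∀ a ℓ : ℝ, x₁ ≤ a → 0 < ℓ → Dio C c₀ n a ℓ → ∀ i j : ℕ, i < j → j + 1 ≤ 2 ^ (2 * K) → j ≤ i + R * K →
        EqA (((j : ℝ) + 1) / (i + 1) * a ^ (j - i)) Q₀ ε := by
  refine ⟨C * ((R : ℝ) + 17) ^ 3 + 19, by positivity, ?_⟩
  obtain ⟨K₀, hK₀⟩ := exists_nat_ge (((R : ℝ) + 17) ^ 3 / c₀)
  refine Filter.eventually_atTop.2 ⟨max 1 K₀, ?_⟩
  intro K hKm
  have hK : 1 ≤ K := (le_max_left _ _).trans hKm
  have hKK : ((R : ℝ) + 17) ^ 3 ≤ c₀ * K := by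
    have h2 : ((R : ℝ) + 17) ^ 3 / c₀ ≤ K := hK₀.trans (by exact_mod_cast (le_max_right _ _).trans hKm)
    rw [div_le_iff₀ hc₀] at h2
    linarith
  have hK1 : (1 : ℝ) ≤ K := by exact_mod_cast hK
  have hK0 : (0 : ℝ) < K := by linarith
  have hK3 : (K : ℝ) ≤ (K : ℝ) ^ 3 := by nlinarith [mul_le_mul hK1 hK1 zero_le_one hK0.le, pow_pos hK0 2]
  set H : ℕ := 2 ^ (12 * K + 3) with hH
  have hH1 : 1 ≤ H := Nat.one_le_two_pow
  have hH0 : (0 : ℝ) < H := by exact_mod_cast hH1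
  have hlog2 : Real.log 2 ≤ 1 := by
    have := Real.log_two_lt_d9
    linarith
  have hlog2' : 0 ≤ Real.log 2 := Real.log_nonneg (by norm_num)
  have hlogH : Real.log H ≤ 15 * K := by
    rw [hH]
    push_cast
    rw [Real.log_pow]
    have h2 : (((12 * K + 3 : ℕ) : ℝ)) * Real.log 2 ≤ ((12 * K + 3 : ℕ) : ℝ) * 1 :=
      mul_le_mul_of_nonneg_left hlog2 (by positivity)
    push_cast at h2 ⊢
    linarith
  set E : ℝ := (C * ((R : ℝ) + 17) ^ 3 + 2) * (K : ℝ) ^ 3 with hE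
  have hE0 : 0 ≤ E := by positivity
  set X : ℕ := ⌈Real.exp E⌉₊ with hXd
  have hX1 : 1 ≤ X := Nat.one_le_ceil_iff.2 (Real.exp_pos _)
  have hXl : Real.exp E ≤ X := Nat.le_ceil _
  have hXu : (X : ℝ) ≤ 2 * Real.exp E := by
    have h1 := (Nat.ceil_lt_add_one (Real.exp_pos E).le).le
    have h2 := Real.one_le_exp hE0
    linarith
  refine ⟨X * H, 5 / H, ?_, by positivity, ?_, ?_⟩
  · have hHe : (H : ℝ) ≤ Real.exp (15 * K) := by
      rw [← Real.exp_log hH0]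
      exact Real.exp_le_exp.2 hlogH
    have hHe2 : Real.exp (15 * K) ≤ Real.exp (15 * (K : ℝ) ^ 3) :=
      Real.exp_le_exp.2 (by linarith)
    have h4 : (4 : ℝ) ≤ Real.exp 2 := by
      have h5 : Real.exp 2 = Real.exp 1 * Real.exp 1 := by rw [← Real.exp_add]; norm_num
      have h6 := Real.exp_one_gt_d9
      rw [h5]
      nlinarith
    have h7 : Real.exp 2 ≤ Real.exp (2 * (K : ℝ) ^ 3) := Real.exp_le_exp.2 (by linarith)
    have h8 : ((X * H : ℕ) : ℝ) + 1 ≤ 2 * (X * H) := by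
      have : (1 : ℝ) ≤ X * H := by exact_mod_cast Nat.mul_pos hX1 hH1
      push_cast
      linarith
    refine h8.trans ?_
    have h9 : (X : ℝ) * H ≤ (2 * Real.exp E) * Real.exp (15 * (K : ℝ) ^ 3) :=
      mul_le_mul hXu (hHe.trans hHe2) hH0.le (by positivity)
    have h10 : 2 * ((2 * Real.exp E) * Real.exp (15 * (K : ℝ) ^ 3))
        ≤ Real.exp (2 * (K : ℝ) ^ 3) * (Real.exp E * Real.exp (15 * (K : ℝ) ^ 3)) := by
      have : 0 ≤ Real.exp E * Real.exp (15 * (K : ℝ) ^ 3) := by positivity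
      nlinarith
    have h11 : Real.exp (2 * (K : ℝ) ^ 3) * (Real.exp E * Real.exp (15 * (K : ℝ) ^ 3))
        ≤ Real.exp ((C * ((R : ℝ) + 17) ^ 3 + 19) * (K : ℝ) ^ 3) := by
      rw [← Real.exp_add, ← Real.exp_add]
      apply Real.exp_le_exp.2
      rw [hE]
      linarith
    linarith
  · rw [div_le_iff₀ hH0, hH]
    push_cast
    rw [pow_add, ← mul_assoc, ← mul_pow]
    norm_num
  · intro n hn a ℓ ha hℓ hdio i j hij hj hjR Q hQ x p' q' hp hpq hq
    have hi0 : (0 : ℝ) < (i : ℝ) + 1 := by positivity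
    have hi2 : (i : ℝ) + 1 ≤ Real.exp (2 * (K : ℝ) ^ 3) := by
      have e1 : i + 1 ≤ 2 ^ (2 * K) := by omega
      have e2 : (i : ℝ) + 1 ≤ (2 : ℝ) ^ (2 * K) := by exact_mod_cast e1
      have e3 : (2 : ℝ) ^ (2 * K) = Real.exp (2 * K * Real.log 2) := by
        rw [← Real.rpow_natCast, Real.rpow_def_of_pos (by norm_num)]
        push_cast
        ring_nf
      rw [e3] at e2
      refine e2.trans (Real.exp_le_exp.2 ?_)
      have e4 : 2 * (K : ℝ) * Real.log 2 ≤ 2 * K * 1 := mul_le_mul_of_nonneg_left hlog2 (by positivity)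
      linarith
    have hk := Pool.Agent.Helper23.LD.kron (α := ((j : ℝ) + 1) / (i + 1) * a ^ (j - i)) hH1 hX1 (by
      intro q hq1 hqH p
      have hq0 : (1 : ℝ) ≤ q := by exact_mod_cast hq1
      have hj0 : (1 : ℝ) ≤ (j : ℝ) + 1 := by
        have : (0 : ℝ) ≤ j := by positivity
        linarith
      have hlogq : Real.log ((q * (j + 1) : ℕ) : ℝ) ≤ 17 * K := by
        have e1 : (((q * (j + 1) : ℕ)) : ℝ) ≤ (2 : ℝ) ^ (14 * K + 3) := by
          have e2 : q * (j + 1) ≤ 2 ^ (12 * K + 3) * 2 ^ (2 * K) := Nat.mul_le_mul hqH hj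
          rw [← pow_add] at e2
          have e3 : 12 * K + 3 + 2 * K = 14 * K + 3 := by ring
          rw [e3] at e2
          exact_mod_cast e2
        have e4 : (0 : ℝ) < ((q * (j + 1) : ℕ) : ℝ) := by positivity
        refine (Real.log_le_log e4 e1).trans ?_
        rw [Real.log_pow]
        have e5 : ((14 * K + 3 : ℕ) : ℝ) * Real.log 2 ≤ ((14 * K + 3 : ℕ) : ℝ) * 1 :=
          mul_le_mul_of_nonneg_left hlog2 (by positivity)
        push_cast at e5 ⊢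
        linarith
      have hlogq0 : 0 ≤ Real.log ((q * (j + 1) : ℕ) : ℝ) := by
        apply Real.log_nonneg
        have : 1 ≤ q * (j + 1) := Nat.mul_pos hq1 (by omega)
        exact_mod_cast this
      have hd : ((j - i : ℕ) : ℝ) ≤ R * K := by
        have : j - i ≤ R * K := by omega
        exact_mod_cast this
      have hT : ((j - i : ℕ) : ℝ) + Real.log ((q * (j + 1) : ℕ) : ℝ) ≤ ((R : ℝ) + 17) * K := by
        linarith
      have hT0 : 0 ≤ ((j - i : ℕ) : ℝ) + Real.log ((q * (j + 1) : ℕ) : ℝ) := by positivity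
      have hT3 : (((j - i : ℕ) : ℝ) + Real.log ((q * (j + 1) : ℕ) : ℝ)) ^ 3
          ≤ ((R : ℝ) + 17) ^ 3 * (K : ℝ) ^ 3 := by
        rw [← mul_pow]
        exact pow_le_pow_left₀ hT0 hT 3
      have hn' : ((K : ℝ)) ^ 4 ≤ n := by exact_mod_cast hn
      have hcn : (((j - i : ℕ) : ℝ) + Real.log ((q * (j + 1) : ℕ) : ℝ)) ^ 3 ≤ c₀ * n := by
        refine hT3.trans ?_
        calc ((R : ℝ) + 17) ^ 3 * (K : ℝ) ^ 3 ≤ (c₀ * K) * (K : ℝ) ^ 3 :=
              mul_le_mul_of_nonneg_right hKK (by positivity)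
          _ = c₀ * (K : ℝ) ^ 4 := by ring
          _ ≤ c₀ * n := mul_le_mul_of_nonneg_left hn' hc₀.le
      have hmain := hdio a ⟨le_rfl, by linarith⟩ (j - i) (q * (j + 1)) (by omega)
        (Nat.mul_pos hq1 (by omega)) hcn (p * (i + 1))
      have e6 : ((q * (j + 1) : ℕ) : ℝ) * a ^ (j - i) - ((p * (i + 1) : ℤ) : ℝ)
          = (q * (((j : ℝ) + 1) / (i + 1) * a ^ (j - i)) - p) * (i + 1) := by
        push_cast
        field_simp
      rw [e6, abs_mul, abs_of_pos hi0] at hmain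
      have e7 : Real.exp (-(C * (((R : ℝ) + 17) ^ 3 * (K : ℝ) ^ 3)))
          ≤ Real.exp (-(C * (((j - i : ℕ) : ℝ) + Real.log ((q * (j + 1) : ℕ) : ℝ)) ^ 3)) := by
        apply Real.exp_le_exp.2
        rw [neg_le_neg_iff]
        exact mul_le_mul_of_nonneg_left hT3 hC.le
      have e8 : Real.exp (-(C * (((R : ℝ) + 17) ^ 3 * (K : ℝ) ^ 3)))
          ≤ |q * (((j : ℝ) + 1) / (i + 1) * a ^ (j - i)) - p| * Real.exp (2 * (K : ℝ) ^ 3) :=
        (e7.trans hmain).trans (mul_le_mul_of_nonneg_left hi2 (abs_nonneg _))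
      have e9 : Real.exp (-E) ≤ |q * (((j : ℝ) + 1) / (i + 1) * a ^ (j - i)) - p| := by
        have e10 : Real.exp (-E) = Real.exp (-(C * (((R : ℝ) + 17) ^ 3 * (K : ℝ) ^ 3)))
            / Real.exp (2 * (K : ℝ) ^ 3) := by
          rw [← Real.exp_sub, hE]
          congr 1
          ring
        rw [e10, div_le_iff₀ (Real.exp_pos _)]
        exact e8
      refine lt_of_lt_of_le ?_ e9
      rw [Real.exp_neg, ← one_div]
      exact one_div_lt_one_div_of_lt (Real.exp_pos _) (by linarith)) Q x hp hpq hq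
    refine hk.trans ?_
    have h5 : (X : ℝ) ≤ Q / H := by
      rw [le_div_iff₀ hH0]
      exact_mod_cast hQ
    have h6 : 5 / (H : ℝ) * Q = 4 * (Q / H) + Q / H := by ring
    rw [h6]
    linarith

end Pool.Agent.Helper23.LD2
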